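import Pool.Agent.Q245.Half.Final

/-!
# Sign matrices of every large order divisible by four whose rows are almost all orthogonal

For every `A` and every sufficiently large `N` divisible by `4` there is an `N × N` matrix `H` with
entries `±1` such that

* every row is orthogonal to all other rows but at most two;
* outside a set of at most `N / (log N) ^ A` rows, every row is orthogonal to all other rows but at
  most one, and all its inner products with other rows are at most `N / (log N) ^ A` in absolute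
  value;
* at least `N / 2 - N / (log N) ^ A` of the rows are mutually orthogonal.

The order `N` is written as `a + b` with `a = p + 1` a Paley order just below `N / 2`, the prime `p`
being found in a progression modulo `2 ^ T` by the theorem of Siegel and Walfisz
(`Pool.Agent.Q245.Half.exists_prime_short`), where `T` is so large that `b`, a multiple of `2 ^ T`,
is the order of a Hadamard matrix (the `log*` theorem of the starting file
`MP_d8b1b3_co/LogStarExistence`); the rows of `H` are `(A i | B i)`, `(A i | - B i)` for `i < a` and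
`(A j | B (a + j))` for `j < b - a` (`Pool.Agent.Q245.Half.main`).
-/

set_option autoImplicit false

open Finset Matrix

namespace Pool.Agent.Results.MP_d8b1b3_co.AlmostOrthogonalRows

theorem result : ∀ A : ℕ, ∃ N₀ : ℕ, ∀ N : ℕ, N₀ ≤ N → 4 ∣ N →
    ∃ H : Matrix (Fin N) (Fin N) ℤ, (∀ i j, H i j = 1 ∨ H i j = -1) ∧
      (∀ i, (univ.filter fun j => j ≠ i ∧ (H * Hᵀ) i j ≠ 0).card ≤ 2) ∧
      (∃ S : Finset (Fin N), (S.card : ℝ) ≤ (N : ℝ) / Real.log N ^ A ∧ ∀ i, i ∉ S →
        (univ.filter fun j => j ≠ i ∧ (H * Hᵀ) i j ≠ 0).card ≤ 1 ∧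
        ∀ j, j ≠ i → |(((H * Hᵀ) i j : ℤ) : ℝ)| ≤ (N : ℝ) / Real.log N ^ A) ∧
      ∃ R : Finset (Fin N), (N : ℝ) / 2 - (N : ℝ) / Real.log N ^ A ≤ (R.card : ℝ) ∧
        ∀ i ∈ R, ∀ j ∈ R, i ≠ j → (H * Hᵀ) i j = 0 := by
  intro A
  obtain ⟨N₀, h⟩ := Pool.Agent.Q245.Half.orders A
  refine ⟨N₀, fun N hN h4 => ?_⟩
  obtain ⟨a, d, hN', hd, hA, hB, h3, hR⟩ := h N hN h4
  obtain ⟨H, h1, h2, ⟨S, hS, hS'⟩, R, hRc, hR'⟩ := Pool.Agent.Q245.Half.main hd hN' hA hB
  have e : ∀ i j, ((Matrix.of H) * (Matrix.of H)ᵀ) i j = Pool.Agent.Q245.Half.ip H i j := by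
    intro i j
    rw [Matrix.mul_apply]
    rfl
  refine ⟨Matrix.of H, h1, ?_, ⟨S, ?_, ?_⟩, R, ?_, ?_⟩
  · intro i
    simp only [e]
    exact h2 i
  · have : (S.card : ℝ) ≤ 3 * d := by exact_mod_cast hS
    linarith
  · intro i hi
    simp only [e]
    refine ⟨(hS' i hi).1, fun j hj => ?_⟩
    have h4 := (hS' i hi).2 j hj
    have h5 : |((Pool.Agent.Q245.Half.ip H i j : ℤ) : ℝ)| ≤ d := by exact_mod_cast h4
    have h6 : (0 : ℝ) ≤ d := by positivity
    linarith
  · rw [hRc]; exact hR
  · intro i hi j hj hij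
    rw [e]
    exact hR' i hi j hj hij

end Pool.Agent.Results.MP_d8b1b3_co.AlmostOrthogonalRows
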