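import Pool.Agent.Y342.SK.Sym

/-!
# Symmetric conference matrices, and Hadamard matrices of order four times an odd number

For every odd number `v` (prime or not) such that `v + 1` is divisible by a large power of two (large
in terms of the iterated logarithm of `v`), and every power of two `e = 2 ^ (j + 1)`, there are a
symmetric conference matrix of order `v ^ e + 1` and a Hadamard matrix of order `2 (v ^ e + 1)`; this
order is four times an odd number. The exponent is not bounded: only the size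
of `v` enters.
-/

set_option autoImplicit false

namespace Pool.Agent.Results.MP_d8b1b3_co.ConferenceOrders

open Pool.Agent.Y342.SK

/-- the bordered matrix of a symmetric core -/
def border {m : ℕ} (B : Fin m → Fin m → ℤ) : Matrix (Fin (m + 1)) (Fin (m + 1)) ℤ :=
  fun x y => Fin.cases (Fin.cases 0 (fun _ => 1) y) (fun i => Fin.cases 1 (fun j => B i j) y) x

theorem conference {m : ℕ} {B : Fin m → Fin m → ℤ} (h : IsCoreG 1 B) :
    (∀ x, border B x x = 0) ∧ (∀ x y, x ≠ y → border B x y = 1 ∨ border B x y = -1) ∧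
    (border B).transpose = border B ∧
    border B * (border B).transpose = (m : ℤ) • (1 : Matrix (Fin (m + 1)) (Fin (m + 1)) ℤ) := by
  have hs : ∀ x y, B y x = B x y := fun x y => by rw [h.sym x y, one_mul]
  have c00 : border B 0 0 = 0 := rfl
  have c01 : ∀ y : Fin m, border B 0 y.succ = 1 := fun y => rfl
  have c10 : ∀ x : Fin m, border B x.succ 0 = 1 := fun x => rfl
  have c11 : ∀ x y : Fin m, border B x.succ y.succ = B x y := fun x y => rfl
  have hT : (border B).transpose = border B := by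
    ext x y
    rw [Matrix.transpose_apply]
    refine Fin.cases ?_ (fun x => ?_) x <;> refine Fin.cases ?_ (fun y => ?_) y
    · rfl
    · rw [c01, c10]
    · rw [c01, c10]
    · rw [c11, c11, hs]
  refine ⟨?_, ?_, hT, ?_⟩
  · intro x
    refine Fin.cases ?_ (fun x => ?_) x
    · exact c00
    · rw [c11]; exact h.diag x
  · intro x y
    refine Fin.cases ?_ (fun x => ?_) x <;> refine Fin.cases ?_ (fun y => ?_) y
    · intro h0; exact absurd rfl h0
    · intro _; rw [c01]; left; rfl
    · intro _; rw [c10]; left; rfl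
    · intro h0; rw [c11]; exact h.sign _ _ fun h' => h0 (by rw [h'])
  · rw [hT]
    ext x y
    rw [Matrix.mul_apply, Matrix.smul_apply, Matrix.one_apply, Fin.sum_univ_succ]
    refine Fin.cases ?_ (fun x => ?_) x <;> refine Fin.cases ?_ (fun y => ?_) y
    · simp only [c00, c01, c10]
      simp
    · simp only [c00, c01, c11, one_mul, zero_mul, zero_add]
      rw [if_neg (Fin.succ_ne_zero y).symm, Finset.sum_congr rfl fun z _ => hs y z, h.row]
      simp
    · simp only [c00, c10, c11, mul_one, mul_zero, zero_add]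
      rw [if_neg (Fin.succ_ne_zero x), h.row]
      simp
    · simp only [c10, c01, c11, mul_one]
      rw [Finset.sum_congr rfl fun z _ => by rw [hs y z], h.mul, Fintype.card_fin]
      by_cases hxy : x = y
      · rw [if_pos hxy, if_pos (by rw [hxy])]
        simp
      · rw [if_neg hxy, if_neg fun h' => hxy (Fin.succ_injective _ h')]
        simp

/-- **Main theorem.** There is a constant `C` such that for all natural numbers `n, v, t, j` with
`v ≤ 2 ↑↑ n` (the tower of `n` twos), `t ≥ 2 ^ C ^ (n + 1)` and `2 ^ t ∣ v + 1`, with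
`w = v ^ 2 ^ (j + 1)`: there is a symmetric conference matrix of order `w + 1` (zero diagonal, entries
`1` or `-1` outside it, symmetric, rows orthogonal), there is a Hadamard matrix of order `2 (w + 1)`, and
`2 (w + 1)` is four times an odd number. -/
theorem result : ∃ C : ℕ, ∀ n v t j : ℕ, v ≤ (fun x : ℕ => 2 ^ x)^[n] 1 →
    2 ^ C ^ (n + 1) ≤ t → 2 ^ t ∣ v + 1 →
    (∃ K : Matrix (Fin (v ^ 2 ^ (j + 1) + 1)) (Fin (v ^ 2 ^ (j + 1) + 1)) ℤ,
      (∀ x, K x x = 0) ∧ (∀ x y, x ≠ y → K x y = 1 ∨ K x y = -1) ∧ K.transpose = K ∧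
      K * K.transpose = ((v ^ 2 ^ (j + 1) : ℕ) : ℤ) • 1) ∧
    (∃ H : Matrix (Fin (2 * (v ^ 2 ^ (j + 1) + 1))) (Fin (2 * (v ^ 2 ^ (j + 1) + 1))) ℤ,
      (∀ i k, H i k = 1 ∨ H i k = -1) ∧
      H * H.transpose = ((2 * (v ^ 2 ^ (j + 1) + 1) : ℕ) : ℤ) • 1) ∧
    ∃ m : ℕ, 2 * (v ^ 2 ^ (j + 1) + 1) = 4 * (2 * m + 1) := by
  obtain ⟨C, hC, h⟩ := main_skew
  refine ⟨C, fun n v t j hv ht hd => ?_⟩
  obtain ⟨S, hS⟩ := core_of h hv ht hd
  obtain ⟨B, hB⟩ := sym_core hS j
  obtain ⟨h1, h2, h3, h4⟩ := conference hB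
  refine ⟨⟨border B, h1, h2, h3, h4⟩, had_two hB, ?_⟩
  -- the order modulo eight
  have ht1 : 1 ≤ t := le_trans (Nat.one_le_two_pow) ht
  have hodd : v % 2 = 1 := by
    have : 2 ∣ v + 1 := (dvd_pow_self 2 (by omega)).trans hd
    omega
  have hsq : (v ^ 2 ^ (j + 1)) % 4 = 1 := by
    rw [pow_succ 2 j, mul_comm, pow_mul, Nat.pow_mod]
    have h5 : v ^ 2 % 4 = 1 := by
      rw [Nat.pow_mod]
      have : v % 4 = 1 ∨ v % 4 = 3 := by omega
      rcases this with h | h <;> rw [h]
    rw [h5, one_pow]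
    norm_num
  exact ⟨(v ^ 2 ^ (j + 1) - 1) / 4, by omega⟩

end Pool.Agent.Results.MP_d8b1b3_co.ConferenceOrders
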