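import Pool.Agent.Q245.Yam.Field

/-!
# Hadamard matrices of order `4 (q + 2)` for prime powers `q ≡ -3 (mod 2 ^ (t + 1))`

There is a constant `C` such that for all natural numbers `n` and `t` and all prime powers `q` with
`q ≤ 2 ↑↑ n` (the power tower of `n` twos), `2 ^ C ^ (n + 1) ≤ t` and `2 ^ (t + 1) ∣ q + 3` there is
a Hadamard matrix of order `4 (q + 2)`. The number `q + 2`, which is `-1` modulo `2 ^ (t + 1)`, need
not be a prime power.

The matrix consists of four border rows and columns and of `U ⊗ J + V ⊗ K` (Miyamoto, Yamada), where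
`U` is made of the identity and of four copies of a skew core of order `(q + 1) / 2`, supplied by
the asymptotic existence theorem for skew-Hadamard matrices of the starting files
(`MP_d8b1b3_co/SkewAsymptotics`), and `V` is a weighing matrix made of two forms of the conference
matrix of the projective line over the field with `q` elements, cut into blocks by a projectivity
of order two without fixed points.
-/

set_option autoImplicit false

open Matrix

namespace Pool.Agent.Results.MP_d8b1b3_co.PrimePowerPlusTwo

theorem result : ∃ C : ℕ, ∀ n q t : ℕ, IsPrimePow q → q ≤ (fun x : ℕ => 2 ^ x)^[n] 1 →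
    2 ^ C ^ (n + 1) ≤ t → 2 ^ (t + 1) ∣ q + 3 →
    ∃ H : Matrix (Fin (4 * (q + 2))) (Fin (4 * (q + 2))) ℤ,
      (∀ i j, H i j = 1 ∨ H i j = -1) ∧
      H * Hᵀ = ((4 * (q + 2) : ℕ) : ℤ) •
        (1 : Matrix (Fin (4 * (q + 2))) (Fin (4 * (q + 2))) ℤ) := by
  obtain ⟨C, _, h⟩ := Pool.Agent.Q245.Yam.main_yamada
  exact ⟨C, fun n q t hq hqn ht hd => h n q t hq hqn ht hd⟩

end Pool.Agent.Results.MP_d8b1b3_co.PrimePowerPlusTwo
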