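import Pool.Agent.Y342.SK.Sym

/-!
# Hadamard matrices of order `2 (w + 1) w ^ s` from symmetric conference matrices of order `w + 1`

For `w = v ^ 2 ^ (j + 1)`, `v + 1` divisible by a large power of two (large in terms of the iterated
logarithm of `v`), and for every exponent `s`, there is a Hadamard matrix of order
`2 (w + 1) w ^ s`, four times an odd number.
-/

set_option autoImplicit false

namespace Pool.Agent.Results.MP_d8b1b3_co.ProductOrders

open Matrix
open scoped Kronecker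
open Pool.Agent.Y342.SK
open Pool.Agent.H108R3.Had (HasHad)

set_option linter.unusedSectionVars false

section kron

variable {ι κ : Type} [Fintype ι] [DecidableEq ι] [Fintype κ] [DecidableEq κ]

theorem sub_kron (A B : Matrix ι ι ℤ) (P : Matrix κ κ ℤ) : (A - B) ⊗ₖ P = A ⊗ₖ P - B ⊗ₖ P := by
  ext ⟨i, k⟩ ⟨j, l⟩
  simp [Matrix.kroneckerMap_apply, sub_mul]

theorem neg_kron (A : Matrix ι ι ℤ) (P : Matrix κ κ ℤ) : (-A) ⊗ₖ P = -(A ⊗ₖ P) := by
  ext ⟨i, k⟩ ⟨j, l⟩
  simp [Matrix.kroneckerMap_apply]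

theorem kron_neg (A : Matrix ι ι ℤ) (P : Matrix κ κ ℤ) : A ⊗ₖ (-P) = -(A ⊗ₖ P) := by
  ext ⟨i, k⟩ ⟨j, l⟩
  simp [Matrix.kroneckerMap_apply]

theorem kk (A B : Matrix ι ι ℤ) (P Q : Matrix κ κ ℤ) :
    (A ⊗ₖ P) * (B ⊗ₖ Q) = (A * B) ⊗ₖ (P * Q) := (mul_kronecker_mul A B P Q).symm

theorem kron_t (A : Matrix ι ι ℤ) (P : Matrix κ κ ℤ) : (A ⊗ₖ P)ᵀ = Aᵀ ⊗ₖ Pᵀ :=
  (kroneckerMap_transpose _ A P).symm

end kron

/-- The four matrices of the recursion. -/
structure Quad {κ : Type} [Fintype κ] [DecidableEq κ] (w N : ℤ) (P M U V : Matrix κ κ ℤ) :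
    Prop where
  sP : ∀ i j, Sg (P i j)
  sM : ∀ i j, Sg (M i j)
  sU : ∀ i j, Sg (U i j)
  sV : ∀ i j, Sg (V i j)
  tP : Pᵀ = P
  tM : Mᵀ = M
  tU : Uᵀ = U
  tV : Vᵀ = V
  PM : M * P = P * M
  PU : U * P = P * U
  PV : V * P = P * V
  MU : U * M = M * U
  MV : V * M = M * V
  UV : V * U = U * V
  cross : P * U = M * V
  K : w • (P * P + M * M) + (U * U + V * V) = (2 * (w + 1) * N) • (1 : Matrix κ κ ℤ)

variable {ι κ : Type} [Fintype ι] [DecidableEq ι] [Fintype κ] [DecidableEq κ]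

/-- the all-ones matrix -/
def J (ι : Type) : Matrix ι ι ℤ := Matrix.of fun _ _ => 1

/-- a symmetric core as a matrix -/
structure Core (w : ℤ) (S : Matrix ι ι ℤ) : Prop where
  d : ∀ i, S i i = 0
  s : ∀ i j, i ≠ j → Sg (S i j)
  t : Sᵀ = S
  SS : S * S = w • 1 - J ι
  SJ : S * J ι = 0
  JS : J ι * S = 0
  JJ : J ι * J ι = w • J ι

theorem core_of_isCore {B : ι → ι → ℤ} (h : IsCoreG 1 B) :
    Core (Fintype.card ι : ℤ) (Matrix.of B) where
  d := h.diag
  s := h.sign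
  t := by ext i j; simp [h.sym i j]
  SS := by
    ext i j
    have := h.mul i j
    have hs : ∀ x y, B y x = B x y := fun x y => by rw [h.sym x y, one_mul]
    rw [Matrix.mul_apply, Matrix.sub_apply, Matrix.smul_apply, Matrix.one_apply]
    simp only [Matrix.of_apply, J]
    rw [Finset.sum_congr rfl fun z _ => by rw [hs j z], this]
    by_cases hij : i = j <;> simp [hij]
  SJ := by
    ext i j
    rw [Matrix.mul_apply]
    simp only [Matrix.of_apply, J, mul_one]
    exact h.row i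
  JS := by
    ext i j
    have hs : ∀ x y, B y x = B x y := fun x y => by rw [h.sym x y, one_mul]
    rw [Matrix.mul_apply]
    simp only [Matrix.of_apply, J, one_mul]
    rw [Finset.sum_congr rfl fun z _ => hs j z]
    exact h.row j
  JJ := by
    ext i j
    rw [Matrix.mul_apply, Matrix.smul_apply]
    simp [J]

theorem J_t : (J ι)ᵀ = J ι := rfl

theorem sg_neg {a : ℤ} (h : Sg a) : Sg (-a) := by
  rcases h with h | h
  · right; rw [h]
  · left; rw [h]; norm_num

/-- the recursion step -/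
theorem Quad.step {w N : ℤ} {P M U V : Matrix κ κ ℤ} (q : Quad w N P M U V) {S : Matrix ι ι ℤ}
    (c : Core w S) :
    Quad w (w * N) (S ⊗ₖ P + (1 : Matrix ι ι ℤ) ⊗ₖ U) (S ⊗ₖ M - (1 : Matrix ι ι ℤ) ⊗ₖ V)
      (J ι ⊗ₖ P) (-(J ι ⊗ₖ M)) where
  sP := by
    rintro ⟨i, k⟩ ⟨j, l⟩
    simp only [Matrix.add_apply, kroneckerMap_apply]
    by_cases h : i = j
    · subst h; rw [c.d, Matrix.one_apply_eq, zero_mul, zero_add, one_mul]; exact q.sU _ _
    · rw [Matrix.one_apply_ne h, zero_mul, add_zero]; exact (c.s _ _ h).mul (q.sP _ _)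
  sM := by
    rintro ⟨i, k⟩ ⟨j, l⟩
    simp only [Matrix.sub_apply, kroneckerMap_apply]
    by_cases h : i = j
    · subst h; rw [c.d, Matrix.one_apply_eq, zero_mul, zero_sub, one_mul]
      exact sg_neg (q.sV _ _)
    · rw [Matrix.one_apply_ne h, zero_mul, sub_zero]; exact (c.s _ _ h).mul (q.sM _ _)
  sU := by
    rintro ⟨i, k⟩ ⟨j, l⟩
    simp only [kroneckerMap_apply, J, Matrix.of_apply, one_mul]
    exact q.sP _ _
  sV := by
    rintro ⟨i, k⟩ ⟨j, l⟩
    simp only [Matrix.neg_apply, kroneckerMap_apply, J, Matrix.of_apply, one_mul]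
    exact sg_neg (q.sM _ _)
  tP := by rw [transpose_add, kron_t, kron_t, c.t, q.tP, q.tU, transpose_one]
  tM := by rw [transpose_sub, kron_t, kron_t, c.t, q.tM, q.tV, transpose_one]
  tU := by rw [kron_t, J_t, q.tP]
  tV := by rw [transpose_neg, kron_t, J_t, q.tM]
  PM := by
    simp only [add_mul, mul_add, sub_mul, mul_sub, kk, one_mul, mul_one, q.PM, q.MU, q.PV, q.UV]
    abel
  PU := by
    simp only [add_mul, mul_add, kk, one_mul, mul_one, q.PU, c.SJ, c.JS]
  PV := by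
    simp only [add_mul, mul_add, neg_mul, mul_neg, kk, one_mul, mul_one, q.PM, q.MU, c.SJ, c.JS,
      zero_kronecker]
    abel
  MU := by
    simp only [sub_mul, mul_sub, kk, one_mul, mul_one, q.PM, q.PV, c.SJ, c.JS, zero_kronecker]
  MV := by
    simp only [sub_mul, mul_sub, neg_mul, mul_neg, kk, one_mul, mul_one, q.MV, c.SJ, c.JS,
      zero_kronecker]
    abel
  UV := by
    simp only [neg_mul, mul_neg, kk, q.PM]
  cross := by
    simp only [add_mul, sub_mul, mul_neg, kk, one_mul, c.SJ, zero_kronecker, q.PU, q.MV, q.cross]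
    abel
  K := by
    have h1 : (S ⊗ₖ P + (1 : Matrix ι ι ℤ) ⊗ₖ U) * (S ⊗ₖ P + (1 : Matrix ι ι ℤ) ⊗ₖ U) +
        (S ⊗ₖ M - (1 : Matrix ι ι ℤ) ⊗ₖ V) * (S ⊗ₖ M - (1 : Matrix ι ι ℤ) ⊗ₖ V) =
        (S * S) ⊗ₖ (P * P + M * M) + (1 : Matrix ι ι ℤ) ⊗ₖ (U * U + V * V) := by
      simp only [add_mul, mul_add, sub_mul, mul_sub, kk, one_mul, mul_one, q.PU, q.MV, q.cross,
        kronecker_add]
      abel
    have h2 : (J ι ⊗ₖ P) * (J ι ⊗ₖ P) + -(J ι ⊗ₖ M) * -(J ι ⊗ₖ M) =
        (w • J ι) ⊗ₖ (P * P + M * M) := by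
      simp only [neg_mul, mul_neg, neg_neg, kk, c.JJ, kronecker_add]
    rw [h1, h2, c.SS, sub_kron, smul_kronecker, smul_kronecker]
    have h3 : (1 : Matrix ι ι ℤ) ⊗ₖ (w • (P * P + M * M) + (U * U + V * V)) =
        (1 : Matrix ι ι ℤ) ⊗ₖ ((2 * (w + 1) * N) • (1 : Matrix κ κ ℤ)) := by rw [q.K]
    rw [kronecker_add, kronecker_smul, kronecker_smul, one_kronecker_one] at h3
    have h4 : (2 * (w + 1) * (w * N)) • (1 : Matrix (ι × κ) (ι × κ) ℤ) =
        w • ((2 * (w + 1) * N) • (1 : Matrix (ι × κ) (ι × κ) ℤ)) := by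
      rw [smul_smul]; congr 1; ring
    rw [h4, ← h3]
    module

/-- the start of the recursion -/
theorem quad_start (w : ℤ) : Quad w 1 (1 : Matrix (Fin 1) (Fin 1) ℤ) 1 1 1 where
  sP := by intro i j; fin_cases i; fin_cases j; left; rfl
  sM := by intro i j; fin_cases i; fin_cases j; left; rfl
  sU := by intro i j; fin_cases i; fin_cases j; left; rfl
  sV := by intro i j; fin_cases i; fin_cases j; left; rfl
  tP := transpose_one
  tM := transpose_one
  tU := transpose_one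
  tV := transpose_one
  PM := rfl
  PU := rfl
  PV := rfl
  MU := rfl
  MV := rfl
  UV := rfl
  cross := rfl
  K := by rw [one_mul]; module

theorem exists_quad {w : ℕ} {S : Matrix (Fin w) (Fin w) ℤ} (c : Core (w : ℤ) S) (s : ℕ) :
    ∃ (κ : Type) (_ : Fintype κ) (_ : DecidableEq κ) (P M U V : Matrix κ κ ℤ),
      Fintype.card κ = w ^ s ∧ Quad (w : ℤ) ((w : ℤ) ^ s) P M U V := by
  induction s with
  | zero => exact ⟨Fin 1, inferInstance, inferInstance, 1, 1, 1, 1, rfl, by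
      rw [pow_zero]; exact quad_start _⟩
  | succ s ih =>
    obtain ⟨κ, i1, i2, P, M, U, V, hc, q⟩ := ih
    have q' := q.step c
    rw [← pow_succ'] at q'
    refine ⟨Fin w × κ, inferInstance, inferInstance, _, _, _, _, ?_, q'⟩
    rw [Fintype.card_prod, Fintype.card_fin, hc, pow_succ, mul_comm]

/-- the bordered matrix of a symmetric core -/
def border {m : ℕ} (B : Fin m → Fin m → ℤ) : Matrix (Fin (m + 1)) (Fin (m + 1)) ℤ :=
  fun x y => Fin.cases (Fin.cases 0 (fun _ => 1) y) (fun i => Fin.cases 1 (fun j => B i j) y) x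

theorem conference {m : ℕ} {B : Fin m → Fin m → ℤ} (h : IsCoreG 1 B) :
    (∀ x, border B x x = 0) ∧ (∀ x y, x ≠ y → Sg (border B x y)) ∧
    (border B)ᵀ = border B ∧
    border B * border B = (m : ℤ) • (1 : Matrix (Fin (m + 1)) (Fin (m + 1)) ℤ) := by
  have hs : ∀ x y, B y x = B x y := fun x y => by rw [h.sym x y, one_mul]
  have c00 : border B 0 0 = 0 := rfl
  have c01 : ∀ y : Fin m, border B 0 y.succ = 1 := fun y => rfl
  have c10 : ∀ x : Fin m, border B x.succ 0 = 1 := fun x => rfl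
  have c11 : ∀ x y : Fin m, border B x.succ y.succ = B x y := fun x y => rfl
  have hT : (border B).transpose = border B := by
    ext x y
    rw [Matrix.transpose_apply]
    refine Fin.cases ?_ (fun x => ?_) x <;> refine Fin.cases ?_ (fun y => ?_) y
    · rfl
    · rw [c01, c10]
    · rw [c01, c10]
    · rw [c11, c11, hs]
  refine ⟨?_, ?_, hT, ?_⟩
  · intro x
    refine Fin.cases ?_ (fun x => ?_) x
    · exact c00
    · rw [c11]; exact h.diag x
  · intro x y
    refine Fin.cases ?_ (fun x => ?_) x <;> refine Fin.cases ?_ (fun y => ?_) y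
    · intro h0; exact absurd rfl h0
    · intro _; rw [c01]; left; rfl
    · intro _; rw [c10]; left; rfl
    · intro h0; rw [c11]; exact h.sign _ _ fun h' => h0 (by rw [h'])
  · ext x y
    rw [Matrix.mul_apply, Matrix.smul_apply, Matrix.one_apply, Fin.sum_univ_succ]
    refine Fin.cases ?_ (fun x => ?_) x <;> refine Fin.cases ?_ (fun y => ?_) y
    · simp only [c00, c01, c10]
      simp
    · simp only [c00, c01, c11, one_mul, zero_mul, zero_add]
      rw [if_neg (Fin.succ_ne_zero y).symm, Finset.sum_congr rfl fun z _ => hs y z, h.row]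
      simp
    · simp only [c00, c10, c11, mul_one, mul_zero, zero_add]
      rw [if_neg (Fin.succ_ne_zero x), h.row]
      simp
    · simp only [c10, c01, c11, mul_one]
      rw [Finset.sum_congr rfl fun z _ => by rw [hs y z], h.mul, Fintype.card_fin]
      by_cases hxy : x = y
      · rw [if_pos hxy, if_pos (by rw [hxy])]
        simp
      · rw [if_neg hxy, if_neg fun h' => hxy (Fin.succ_injective _ h')]
        simp

/-- Hadamard matrices of order `2 (m + 1) m ^ s` from a symmetric core of order `m`. -/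
theorem had_prod {m : ℕ} {B : Fin m → Fin m → ℤ} (h : IsCoreG 1 B) (s : ℕ) :
    HasHad (2 * (m + 1) * m ^ s) := by
  obtain ⟨cd, cs, ct, cc⟩ := conference h
  have c := core_of_isCore h
  rw [Fintype.card_fin] at c
  obtain ⟨κ, i1, i2, P, M, U, V, hcard, q⟩ := exists_quad c s
  set C := border B with hC
  let X : Matrix (Fin (m + 1) × κ) (Fin (m + 1) × κ) ℤ :=
    C ⊗ₖ P + (1 : Matrix (Fin (m + 1)) (Fin (m + 1)) ℤ) ⊗ₖ U
  let Y : Matrix (Fin (m + 1) × κ) (Fin (m + 1) × κ) ℤ :=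
    C ⊗ₖ M - (1 : Matrix (Fin (m + 1)) (Fin (m + 1)) ℤ) ⊗ₖ V
  have hX : ∀ a b, Sg (X a b) := by
    rintro ⟨i, k⟩ ⟨j, l⟩
    simp only [X, Matrix.add_apply, kroneckerMap_apply]
    by_cases h : i = j
    · subst h; rw [cd, Matrix.one_apply_eq, zero_mul, zero_add, one_mul]; exact q.sU _ _
    · rw [Matrix.one_apply_ne h, zero_mul, add_zero]; exact (cs _ _ h).mul (q.sP _ _)
  have hY : ∀ a b, Sg (Y a b) := by
    rintro ⟨i, k⟩ ⟨j, l⟩
    simp only [Y, Matrix.sub_apply, kroneckerMap_apply]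
    by_cases h : i = j
    · subst h; rw [cd, Matrix.one_apply_eq, zero_mul, zero_sub, one_mul]
      exact sg_neg (q.sV _ _)
    · rw [Matrix.one_apply_ne h, zero_mul, sub_zero]; exact (cs _ _ h).mul (q.sM _ _)
  have tX : Xᵀ = X := by
    simp only [X]; rw [transpose_add, kron_t, kron_t, ct, q.tP, q.tU, transpose_one]
  have tY : Yᵀ = Y := by
    simp only [Y]; rw [transpose_sub, kron_t, kron_t, ct, q.tM, q.tV, transpose_one]
  have hcomm : Y * X = X * Y := by
    simp only [X, Y, add_mul, mul_add, sub_mul, mul_sub, kk, one_mul, mul_one, q.PM, q.MU, q.PV,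
      q.UV]
    abel
  have hsum : X * X + Y * Y = ((2 * (m + 1) * m ^ s : ℕ) : ℤ) • 1 := by
    have h1 : X * X + Y * Y = (C * C) ⊗ₖ (P * P + M * M) +
        (1 : Matrix (Fin (m + 1)) (Fin (m + 1)) ℤ) ⊗ₖ (U * U + V * V) := by
      simp only [X, Y, add_mul, mul_add, sub_mul, mul_sub, kk, one_mul, mul_one, q.PU, q.MV,
        q.cross, kronecker_add]
      abel
    have h2 : (1 : Matrix (Fin (m + 1)) (Fin (m + 1)) ℤ) ⊗ₖ
        ((m : ℤ) • (P * P + M * M) + (U * U + V * V)) =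
        (1 : Matrix (Fin (m + 1)) (Fin (m + 1)) ℤ) ⊗ₖ
        ((2 * ((m : ℤ) + 1) * (m : ℤ) ^ s) • (1 : Matrix κ κ ℤ)) := by rw [q.K]
    rw [kronecker_add, kronecker_smul, kronecker_smul, one_kronecker_one] at h2
    rw [h1, cc, smul_kronecker, h2]
    congr 1
  refine Pool.Agent.TH432.Had.had_reindex
    (ι := (Fin (m + 1) × κ) ⊕ (Fin (m + 1) × κ)) ?_ (fromBlocks X Y Y (-X)) ?_ ?_
  · rw [Fintype.card_sum, Fintype.card_prod, Fintype.card_fin, hcard]
    ring
  · rintro (a | a) (b | b)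
    · exact hX a b
    · exact hY a b
    · exact hY a b
    · exact sg_neg (hX a b)
  · intro a b
    have hH : fromBlocks X Y Y (-X) * (fromBlocks X Y Y (-X))ᵀ =
        ((2 * (m + 1) * m ^ s : ℕ) : ℤ) •
          (1 : Matrix ((Fin (m + 1) × κ) ⊕ (Fin (m + 1) × κ)) _ ℤ) := by
      rw [fromBlocks_transpose, fromBlocks_multiply, transpose_neg, tX, tY, ← fromBlocks_one,
        fromBlocks_smul, hsum]
      congr 1
      · rw [mul_neg, hcomm, add_neg_cancel, smul_zero]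
      · rw [neg_mul, hcomm, add_neg_cancel, smul_zero]
      · rw [neg_mul_neg]; exact (add_comm _ _).trans hsum
    have := congrFun (congrFun hH a) b
    rw [Matrix.mul_apply, Matrix.smul_apply, Matrix.one_apply] at this
    simp only [Matrix.transpose_apply] at this
    rw [this]
    by_cases hab : a = b <;> simp [hab]

/-- **Main theorem.** There is a constant `C` such that for all natural numbers `n, v, t, j, s` with
`s ≥ 1`, `v ≤ 2 ↑↑ n` (the tower of `n` twos), `t ≥ 2 ^ C ^ (n + 1)` and `2 ^ t ∣ v + 1`, with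
`w = v ^ 2 ^ (j + 1)`: there is a Hadamard matrix of order `2 (w + 1) w ^ s`, and this order is four
times an odd number. -/
theorem result : ∃ C : ℕ, ∀ n v t j s : ℕ, 1 ≤ s → v ≤ (fun x : ℕ => 2 ^ x)^[n] 1 →
    2 ^ C ^ (n + 1) ≤ t → 2 ^ t ∣ v + 1 →
    (∃ H : Matrix (Fin (2 * (v ^ 2 ^ (j + 1) + 1) * (v ^ 2 ^ (j + 1)) ^ s))
        (Fin (2 * (v ^ 2 ^ (j + 1) + 1) * (v ^ 2 ^ (j + 1)) ^ s)) ℤ,
      (∀ i k, H i k = 1 ∨ H i k = -1) ∧
      H * H.transpose =
        ((2 * (v ^ 2 ^ (j + 1) + 1) * (v ^ 2 ^ (j + 1)) ^ s : ℕ) : ℤ) • 1) ∧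
    ∃ m : ℕ, 2 * (v ^ 2 ^ (j + 1) + 1) * (v ^ 2 ^ (j + 1)) ^ s = 4 * (2 * m + 1) := by
  obtain ⟨C, hC, h⟩ := main_skew
  refine ⟨C, fun n v t j s _ hv ht hd => ?_⟩
  obtain ⟨S, hS⟩ := core_of h hv ht hd
  obtain ⟨B, hB⟩ := sym_core hS j
  refine ⟨had_prod hB s, ?_⟩
  have ht1 : 1 ≤ t := le_trans (Nat.one_le_two_pow) ht
  have hodd : v % 2 = 1 := by
    have : 2 ∣ v + 1 := (dvd_pow_self 2 (by omega)).trans hd
    omega
  have hsq : (v ^ 2 ^ (j + 1)) % 4 = 1 := by
    rw [pow_succ 2 j, mul_comm, pow_mul, Nat.pow_mod]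
    have h5 : v ^ 2 % 4 = 1 := by
      rw [Nat.pow_mod]
      have : v % 4 = 1 ∨ v % 4 = 3 := by omega
      rcases this with h | h <;> rw [h]
    rw [h5, one_pow]
    norm_num
  set w := v ^ 2 ^ (j + 1) with hw
  have hws : w ^ s % 4 = 1 := by
    rw [Nat.pow_mod, hsq, one_pow]
    norm_num
  obtain ⟨a, ha⟩ : ∃ a, w = 4 * a + 1 := ⟨w / 4, by omega⟩
  obtain ⟨b, hb⟩ : ∃ b, w ^ s = 4 * b + 1 := ⟨w ^ s / 4, by omega⟩
  refine ⟨a + 2 * b + 4 * a * b, ?_⟩
  rw [hb, ha]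
  ring

end Pool.Agent.Results.MP_d8b1b3_co.ProductOrders
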